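import Pool.Agent.Results.MP_9dddc4_co.UkExponent

namespace Pool.Agent.Results.MP_9dddc4_co.UThreeOrder

open Finset Pool.Agent.Results.MP_9dddc4_co.UkExponent

/-- the edge with the vertices `g (c, p c)` -/
def T {n s : ℕ} (g : Fin 3 × (Fin s × Fin s) → Fin n) (p : Fin 3 → Fin s × Fin s) :
    Finset (Fin n) := univ.image (fun c => g (c, p c))

theorem mem_T {n s : ℕ} (g : Fin 3 × (Fin s × Fin s) → Fin n) (hg : Function.Injective g)
    (p : Fin 3 → Fin s × Fin s) (c : Fin 3) (a : Fin s × Fin s) :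
    g (c, a) ∈ T g p ↔ p c = a := by
  unfold T
  simp only [mem_image, mem_univ, true_and]
  constructor
  · rintro ⟨d, hd⟩
    have := hg hd
    simp only [Prod.mk.injEq] at this
    obtain ⟨h1, h2⟩ := this
    subst h1
    exact h2
  · rintro rfl
    exact ⟨c, rfl⟩

theorem T_inj {n s : ℕ} (g : Fin 3 × (Fin s × Fin s) → Fin n) (hg : Function.Injective g) :
    Function.Injective (T g) := by
  intro p q h
  funext c
  have : g (c, q c) ∈ T g p := by rw [h, mem_T g hg]
  rwa [mem_T g hg] at this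

theorem T_card {n s : ℕ} (g : Fin 3 × (Fin s × Fin s) → Fin n) (hg : Function.Injective g)
    (p : Fin 3 → Fin s × Fin s) : (T g p).card = 3 := by
  unfold T
  rw [card_image_of_injective]
  · simp
  · intro c d h
    have := hg h
    simp only [Prod.mk.injEq] at this
    exact this.1

/-- disjoint complete tripartite blocks -/
def P1 (s : ℕ) : Finset (Fin 3 → Fin s × Fin s) :=
  univ.image (fun q : Fin s × (Fin 3 → Fin s) => fun c => (q.1, q.2 c))

/-- a star -/
def P2 (s : ℕ) [NeZero s] : Finset (Fin 3 → Fin s × Fin s) :=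
  univ.image (fun q : (Fin s × Fin s) × (Fin s × Fin s) => ![q.1, q.2, 0])

/-- a partial Steiner system -/
def P3 (s : ℕ) [NeZero s] : Finset (Fin 3 → Fin s × Fin s) :=
  univ.image (fun q : (Fin s × Fin s) × (Fin s × Fin s) => ![q.1, q.2, q.1 + q.2])

theorem card_P1 (s : ℕ) : (P1 s).card = s ^ 4 := by
  unfold P1
  rw [card_image_of_injective]
  · simp [card_univ]
    ring
  · rintro ⟨a, x⟩ ⟨b, y⟩ h
    have h0 := congrFun h 0
    simp only [Prod.mk.injEq] at h0
    have h1 : x = y := by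
      funext c
      have := congrFun h c
      simp only [Prod.mk.injEq] at this
      exact this.2
    rw [h0.1, h1]

theorem card_P2 (s : ℕ) [NeZero s] : (P2 s).card = s ^ 4 := by
  unfold P2
  rw [card_image_of_injective]
  · simp [card_univ]
    ring
  · rintro ⟨a, x⟩ ⟨b, y⟩ h
    have h0 := congrFun h 0
    have h1 := congrFun h 1
    simp at h0 h1
    rw [h0, h1]

theorem card_P3 (s : ℕ) [NeZero s] : (P3 s).card = s ^ 4 := by
  unfold P3
  rw [card_image_of_injective]
  · simp [card_univ]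
    ring
  · rintro ⟨a, x⟩ ⟨b, y⟩ h
    have h0 := congrFun h 0
    have h1 := congrFun h 1
    simp at h0 h1
    rw [h0, h1]

/-- the three hypergraphs -/
def Hs {n : ℕ} (s : ℕ) [NeZero s] (g : Fin 3 × (Fin s × Fin s) → Fin n) :
    Fin 3 → Finset (Finset (Fin n)) :=
  ![(P1 s).image (T g), (P2 s).image (T g), (P3 s).image (T g)]

theorem P3_third {s : ℕ} [NeZero s] {p q : Fin 3 → Fin s × Fin s} (hp : p ∈ P3 s) (hq : q ∈ P3 s)
    {c d : Fin 3} (hcd : c ≠ d) (hc : p c = q c) (hd : p d = q d) : p = q := by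
  unfold P3 at hp hq
  simp only [mem_image, mem_univ, true_and, Prod.exists] at hp hq
  obtain ⟨a1, a2, b1, b2, rfl⟩ := hp
  obtain ⟨a1', a2', b1', b2', rfl⟩ := hq
  have key : ((a1, a2) : Fin s × Fin s) = (a1', a2') ∧ ((b1, b2) : Fin s × Fin s) = (b1', b2') := by
    generalize ((a1, a2) : Fin s × Fin s) = u at *
    generalize ((b1, b2) : Fin s × Fin s) = v at *
    generalize ((a1', a2') : Fin s × Fin s) = u' at *
    generalize ((b1', b2') : Fin s × Fin s) = v' at *
    fin_cases c <;> fin_cases d <;> simp_all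
  rw [key.1, key.2]

theorem common_le {n : ℕ} (s : ℕ) [NeZero s] (g : Fin 3 × (Fin s × Fin s) → Fin n)
    (hg : Function.Injective g) (m : ℕ) (h : Common (Hs s g) m) : m ≤ s := by
  obtain ⟨F, σ, hF, hσ⟩ := h
  have h0 := hσ 0
  have h1 := hσ 1
  have h2 := hσ 2
  simp only [Hs, Matrix.cons_val_zero, Matrix.cons_val_one, Matrix.cons_val] at h0 h1 h2
  rcases Finset.eq_empty_or_nonempty F with he | ⟨e0, he0⟩
  · rw [← hF, he]; simp
  -- the centre
  set w : Fin n := (σ 1).symm (g (2, 0)) with hw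
  have hwe : ∀ e ∈ F, w ∈ e := by
    intro e he
    have : e.image (σ 1) ∈ (P2 s).image (T g) := h1 (mem_image_of_mem _ he)
    rw [mem_image] at this
    obtain ⟨p, hp, hpe⟩ := this
    have hp2 : p 2 = 0 := by
      unfold P2 at hp
      simp only [mem_image, mem_univ, true_and] at hp
      obtain ⟨q, rfl⟩ := hp
      simp
    have : g (2, 0) ∈ e.image (σ 1) := by
      rw [← hpe, mem_T g hg]; exact hp2
    rw [mem_image] at this
    obtain ⟨v, hv, hve⟩ := this
    rw [hw, ← hve]
    simpa using hv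
  -- codegree one
  have hcod : ∀ e ∈ F, ∀ e' ∈ F, ∀ v v' : Fin n, v ≠ v' → v ∈ e → v' ∈ e → v ∈ e' → v' ∈ e' →
      e = e' := by
    intro e he e' he' v v' hvv hve hv'e hve' hv'e'
    have m1 : e.image (σ 2) ∈ (P3 s).image (T g) := h2 (mem_image_of_mem _ he)
    have m2 : e'.image (σ 2) ∈ (P3 s).image (T g) := h2 (mem_image_of_mem _ he')
    rw [mem_image] at m1 m2
    obtain ⟨p, hp, hpe⟩ := m1
    obtain ⟨q, hq, hqe⟩ := m2
    have a1 : σ 2 v ∈ T g p := by rw [hpe]; exact mem_image_of_mem _ hve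
    have a2 : σ 2 v' ∈ T g p := by rw [hpe]; exact mem_image_of_mem _ hv'e
    have a3 : σ 2 v ∈ T g q := by rw [hqe]; exact mem_image_of_mem _ hve'
    have a4 : σ 2 v' ∈ T g q := by rw [hqe]; exact mem_image_of_mem _ hv'e'
    have a1' := a1
    have a2' := a2
    unfold T at a1' a2'
    simp only [mem_image, mem_univ, true_and] at a1' a2'
    obtain ⟨c, hc⟩ := a1'
    obtain ⟨d, hd⟩ := a2'
    have hcd : c ≠ d := by
      rintro rfl
      rw [hc] at hd
      exact hvv ((σ 2).injective hd)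
    rw [← hc, mem_T g hg] at a3
    rw [← hd, mem_T g hg] at a4
    have hpq : p = q := P3_third hp hq hcd a3.symm a4.symm
    have : e.image (σ 2) = e'.image (σ 2) := by rw [← hpe, ← hqe, hpq]
    exact Finset.image_injective (σ 2).injective this
  -- the block of the centre
  set w' : Fin n := σ 0 w with hw'
  have hT : ∀ e ∈ F, ∃ (b : Fin s) (x : Fin 3 → Fin s), T g (fun c => (b, x c)) = e.image (σ 0) := by
    intro e he
    have : e.image (σ 0) ∈ (P1 s).image (T g) := h0 (mem_image_of_mem _ he)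
    rw [mem_image] at this
    obtain ⟨p, hp, hpe⟩ := this
    unfold P1 at hp
    simp only [mem_image, mem_univ, true_and] at hp
    obtain ⟨q, rfl⟩ := hp
    exact ⟨q.1, q.2, hpe⟩
  choose! b x hbx using hT
  have hww : ∀ e ∈ F, w' ∈ T g (fun c => (b e, x e c)) := by
    intro e he
    rw [hbx e he]
    exact mem_image_of_mem _ (hwe e he)
  have := hww e0 he0
  unfold T at this
  simp only [mem_image, mem_univ, true_and] at this
  obtain ⟨c, hc⟩ := this
  have hb : ∀ e ∈ F, b e = b e0 ∧ x e c = x e0 c := by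
    intro e he
    have h3 := hww e he
    rw [← hc, mem_T g hg] at h3
    simp only [Prod.mk.injEq] at h3
    exact h3
  -- another class
  have hinj : Set.InjOn (fun e => x e (c + 1)) (F : Set (Finset (Fin n))) := by
    intro e he e' he' hee
    have he : e ∈ F := he
    have he' : e' ∈ F := he'
    simp only at hee
    have hne : c + 1 ≠ c := by
      fin_cases c <;> decide
    set z : Fin n := g (c + 1, (b e, x e (c + 1))) with hz
    have hz1 : z ∈ e.image (σ 0) := by
      rw [← hbx e he, hz, mem_T g hg]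
    have hz2 : z ∈ e'.image (σ 0) := by
      rw [← hbx e' he', hz, mem_T g hg]
      rw [(hb e he).1, (hb e' he').1, hee]
    rw [mem_image] at hz1 hz2
    obtain ⟨z1, hz1e, hz1z⟩ := hz1
    obtain ⟨z2, hz2e, hz2z⟩ := hz2
    have hz12 : z1 = z2 := (σ 0).injective (by rw [hz1z, hz2z])
    subst hz12
    apply hcod e he e' he' w z1 _ (hwe e he) hz1e (hwe e' he') hz2e
    intro hwz
    have : w' = z := by rw [hw', hwz, hz1z]
    rw [← hc, hz] at this
    have := hg this
    simp only [Prod.mk.injEq] at this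
    exact hne this.1.symm
  rw [← hF]
  calc F.card = (F.image (fun e => x e (c + 1))).card := (card_image_of_injOn hinj).symm
    _ ≤ (univ : Finset (Fin s)).card := card_le_card (subset_univ _)
    _ = s := by simp

theorem lower_nat (n s : ℕ) (hs : 1 ≤ s) (hn : 3 * s ^ 2 ≤ n) : s ^ 3 ≤ U 3 n 3 := by
  have : NeZero s := ⟨by omega⟩
  have hcard : Fintype.card (Fin 3 × (Fin s × Fin s)) ≤ Fintype.card (Fin n) := by
    simp only [Fintype.card_prod, Fintype.card_fin]
    nlinarith
  obtain ⟨g⟩ := Function.Embedding.nonempty_of_card_le hcard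
  have hg : Function.Injective (g : _ → Fin n) := g.injective
  have h := le_U_mul (k := 3) (n := n) (r := 3) (Hs s g) (by
    intro i e he
    fin_cases i <;> simp only [Hs] at he <;> simp at he <;> obtain ⟨p, hp, rfl⟩ := he <;>
      exact T_card g hg p) (s ^ 4) s (by norm_num) (by
    intro i
    fin_cases i
    · simp only [Hs]
      simp [card_image_of_injective _ (T_inj g hg), card_P1 s]
    · simp only [Hs]
      simp [card_image_of_injective _ (T_inj g hg), card_P2 s]
    · simp only [Hs]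
      simp [card_image_of_injective _ (T_inj g hg), card_P3 s]) (fun m hm => common_le s g hg m hm)
  have h2 : s ^ 3 * s ≤ U 3 n 3 * s := by
    calc s ^ 3 * s = s ^ 4 := by ring
      _ ≤ _ := h
  exact Nat.le_of_mul_le_mul_right h2 (by omega)

/-- `U_3(n,3)` has the order of magnitude `n ^ (3/2)`. -/
theorem result : ∃ c C : ℝ, 0 < c ∧ 0 < C ∧ ∀ᶠ n : ℕ in Filter.atTop,
    c * (n : ℝ) ^ (3 / 2 : ℝ) ≤ (U 3 n 3 : ℝ) ∧ (U 3 n 3 : ℝ) ≤ C * (n : ℝ) ^ (3 / 2 : ℝ) := by
  obtain ⟨C, hC, h2⟩ := upper_bound 3 le_rfl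
  refine ⟨1 / 64, C, by norm_num, hC, ?_⟩
  have hexp : (2 : ℝ) - 4 / (3 * ((3 : ℕ) : ℝ) - 1) = 3 / 2 := by norm_num
  rw [hexp] at h2
  filter_upwards [h2, Filter.eventually_ge_atTop 12] with n hn hn12
  refine ⟨?_, hn⟩
  set s := Nat.sqrt (n / 3) with hs
  have h4 : 4 ≤ n / 3 := by omega
  have hs1 : 2 ≤ s := by
    rw [hs, Nat.le_sqrt]; omega
  have hsn : 3 * s ^ 2 ≤ n := by
    have : s * s ≤ n / 3 := Nat.sqrt_le _
    have h5 : 3 * (n / 3) ≤ n := Nat.mul_div_le n 3
    nlinarith
  have hns : n < 3 * (s + 1) ^ 2 := by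
    have : n / 3 < (s + 1) * (s + 1) := Nat.lt_succ_sqrt _
    have h5 : n < 3 * (n / 3 + 1) := by omega
    nlinarith
  have hl := lower_nat n s (by omega) hsn
  have hl' : ((s : ℝ)) ^ 3 ≤ (U 3 n 3 : ℝ) := by exact_mod_cast hl
  have hn16 : (n : ℝ) ≤ 16 * (s : ℝ) ^ 2 := by
    have : n ≤ 16 * s ^ 2 := by nlinarith
    exact_mod_cast this
  have hs0 : (0 : ℝ) ≤ (s : ℝ) := by positivity
  have hpow : (n : ℝ) ^ (3 / 2 : ℝ) ≤ 64 * (s : ℝ) ^ 3 := by
    calc (n : ℝ) ^ (3 / 2 : ℝ) ≤ (16 * (s : ℝ) ^ 2) ^ (3 / 2 : ℝ) :=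
          Real.rpow_le_rpow (by positivity) hn16 (by norm_num)
      _ = 64 * (s : ℝ) ^ 3 := by
          have : (16 * (s : ℝ) ^ 2) = (4 * (s : ℝ)) ^ (2 : ℝ) := by
            rw [Real.rpow_two]; ring
          rw [this, ← Real.rpow_mul (by positivity)]
          have : (2 : ℝ) * (3 / 2) = (3 : ℕ) := by norm_num
          rw [this, Real.rpow_natCast]
          ring
  linarith

end Pool.Agent.Results.MP_9dddc4_co.UThreeOrder
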