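import Pool.Agent.H773R2.UR.SFC
import Pool.Agent.H773R2.UR.SFB
import Pool.Agent.H773R2.UR.SFN
import Pool.Agent.H773R2.UR.COS
import Pool.Agent.H773R2.UR.POT
import Pool.Agent.H773R2.UR.UB
import Pool.Agent.H773R2.UR.RG
import Pool.Agent.H773R2.UR.PK
import Pool.Agent.H773R2.UR.LBR
import Pool.Agent.H773R2.UR.ARR
import Pool.Agent.H773R2.UR.LB
import Pool.Agent.H773R2.UR.EVU
import Pool.Agent.H773R2.UR.EVL

/-!
The exponent of `U_2(n,r)` for every uniformity `r`. Blueprint and assembly: helper773.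
Formalisation of the lemmas: helpers 16, 81, 197, 260, 287, 434, 437, 459, 704, 880, 953, 959, 965.
-/

namespace Pool.Agent.Results.MP_9dddc4_co.UTwoAllR

open Pool.Agent.Results.MP_9dddc4_co.UkExponent H773W

theorem ub_odd : S_UB := UB (COS SFC SFB SFN) POT

theorem lb_odd : S_LB := LB RG PK LBR ARR

theorem ub_even : S_EVU := EVU

theorem lb_even : S_EVL := EVL PK

theorem log_ge_one : ∀ᶠ n : ℕ in Filter.atTop, 1 ≤ Real.log n := by
  filter_upwards [Filter.eventually_ge_atTop 3] with n hn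
  exact (log_facts hn).1

/-- For every `r ≥ 2` the number `U_2(n,r)` equals `n ^ (⌊r²/2⌋ / r)` up to a power of the
logarithm smaller than one. -/
theorem result : ∀ r : ℕ, 2 ≤ r → ∃ c C : ℝ, 0 < c ∧ 0 < C ∧ ∀ᶠ n : ℕ in Filter.atTop,
    c * (n : ℝ) ^ (((r ^ 2 / 2 : ℕ) : ℝ) / r) / (Real.log n) ^ (((r : ℝ) + 1) / (2 * r))
        ≤ (U 2 n r : ℝ) ∧
      (U 2 n r : ℝ) ≤ C * (n : ℝ) ^ (((r ^ 2 / 2 : ℕ) : ℝ) / r) := by
  intro r hr
  rcases Nat.even_or_odd' r with ⟨t, rfl | rfl⟩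
  · have ht : 1 ≤ t := by omega
    obtain ⟨C, hC, h2⟩ := ub_even (2 * t) (by omega)
    obtain ⟨c, hc, h1⟩ := lb_even t ht
    refine ⟨c, C, hc, hC, ?_⟩
    have hexp : (((2 * t) ^ 2 / 2 : ℕ) : ℝ) / ((2 * t : ℕ) : ℝ) = t := by
      have h3 : (2 * t) ^ 2 / 2 = 2 * t * t := by
        have : (2 * t) ^ 2 = 2 * t * t * 2 := by ring
        rw [this, Nat.mul_div_cancel _ (by norm_num)]
      have ht0 : (t : ℝ) ≠ 0 := by
        have : (1 : ℝ) ≤ t := by exact_mod_cast ht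
        linarith
      rw [h3]
      push_cast
      field_simp
    filter_upwards [h1, log_ge_one, Filter.eventually_ge_atTop 1] with n hn hl hn1
    rw [hexp]
    constructor
    · refine le_trans ?_ hn
      rw [Real.rpow_natCast]
      apply div_le_self (by positivity)
      apply Real.one_le_rpow hl
      positivity
    · have h4 := h2 n hn1
      have h5 : ((2 * t : ℕ) : ℝ) / 2 = t := by push_cast; ring
      rwa [h5] at h4
  · have ht : 1 ≤ t := by omega
    obtain ⟨C, hC, h2⟩ := ub_odd t ht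
    obtain ⟨c, hc, h1⟩ := lb_odd t ht
    refine ⟨c, C, hc, hC, ?_⟩
    have hexp : (((2 * t + 1) ^ 2 / 2 : ℕ) : ℝ) / ((2 * t + 1 : ℕ) : ℝ) = ex t := by
      have h3 : (2 * t + 1) ^ 2 / 2 = 2 * t * (t + 1) := by
        have : (2 * t + 1) ^ 2 = 2 * (2 * t * (t + 1)) + 1 := by ring
        omega
      rw [h3]
      unfold ex
      push_cast
      ring
    have hexp2 : ((((2 * t + 1 : ℕ) : ℝ)) + 1) / (2 * ((2 * t + 1 : ℕ) : ℝ)) =
        ((t : ℝ) + 1) / (2 * t + 1) := by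
      push_cast
      have : (2 * (t : ℝ) + 1) ≠ 0 := by positivity
      field_simp
      ring
    filter_upwards [h1, Filter.eventually_ge_atTop 1] with n hn hn1
    rw [hexp, hexp2]
    exact ⟨hn, h2 n hn1⟩

end Pool.Agent.Results.MP_9dddc4_co.UTwoAllR
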