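import Pool.Agent.H773R2.UD.EM1
import Pool.Agent.H773R2.UD.EM2
import Pool.Agent.H773R2.U2.ARB
import Pool.Agent.H773R2.U2.ARI
import Pool.Agent.H773R2.U2.CHAIN
import Pool.Agent.H773R2.U2.CLEAN
import Pool.Agent.H773R2.U2.COMT
import Pool.Agent.H773R2.U2.CORE
import Pool.Agent.H773R2.U2.EMS
import Pool.Agent.H773R2.U2.EMT
import Pool.Agent.H773R2.U2.FIN2
import Pool.Agent.H773R2.U2.FINE
import Pool.Agent.H773R2.U2.HVC
import Pool.Agent.H773R2.U2.IA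
import Pool.Agent.H773R2.U2.IIIA
import Pool.Agent.H773R2.U2.LB
import Pool.Agent.H773R2.U2.LB1
import Pool.Agent.H773R2.U2.LB2
import Pool.Agent.H773R2.U2.LB3
import Pool.Agent.H773R2.U2.LEAF
import Pool.Agent.H773R2.U2.LEV
import Pool.Agent.H773R2.U2.LG
import Pool.Agent.H773R2.U2.LIFT3
import Pool.Agent.H773R2.U2.LIFTI
import Pool.Agent.H773R2.U2.MO
import Pool.Agent.H773R2.U2.MULTI
import Pool.Agent.H773R2.U2.NC0
import Pool.Agent.H773R2.U2.NC1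
import Pool.Agent.H773R2.U2.NC2
import Pool.Agent.H773R2.U2.NOT3
import Pool.Agent.H773R2.U2.OC
import Pool.Agent.H773R2.U2.OR
import Pool.Agent.H773R2.U2.PARM
import Pool.Agent.H773R2.U2.PFS
import Pool.Agent.H773R2.U2.POT
import Pool.Agent.H773R2.U2.PP
import Pool.Agent.H773R2.U2.SEL
import Pool.Agent.H773R2.U2.SFE
import Pool.Agent.H773R2.U2.SFOR
import Pool.Agent.H773R2.U2.SHC
import Pool.Agent.H773R2.U2.SHS
import Pool.Agent.H773R2.U2.SPLIT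
import Pool.Agent.H773R2.U2.STEP
import Pool.Agent.H773R2.U2.TIIIa
import Pool.Agent.H773R2.U2.TIIIb
import Pool.Agent.H773R2.U2.TIIa
import Pool.Agent.H773R2.U2.TIIb
import Pool.Agent.H773R2.U2.TIa
import Pool.Agent.H773R2.U2.TIb
import Pool.Agent.H773R2.U2.TK
import Pool.Agent.H773R2.U2.TRUNC
import Pool.Agent.H773R2.U2.UB

/-!
The order of magnitude of `U_2(n,3)`. Blueprint and assembly: helper773. Formalisation of the
lemmas: helpers 8, 9, 20, 36, 48, 79, 83, 139, 166, 197, 235, 254, 278, 318, 329, 401, 409, 435,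
467, 479, 493, 505, 642, 672, 680, 700, 737, 739, 784, 850, 879, 886, 931, 965, 972.
-/

namespace Pool.Agent.Results.MP_9dddc4_co.UTwoOrder

open Pool.Agent.Results.MP_9dddc4_co.UkExponent H773V

/-- the embedding lemma for tree-like 3-graphs -/
theorem emt : S_EMT := EMT (H773U.EM2 H773U.EM1)

theorem core : S_CORE := CORE (CHAIN STEP)

theorem lg : S_LG := LG OR TRUNC core SPLIT MO SEL PFS (ARB PFS)

theorem ems : S_EMS := EMS (SFE SFOR) PFS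

theorem iiia : S_IIIA := IIIA (OC TK NC1 NC2 lg ems LIFT3 PFS) MULTI PFS TK

theorem pp : S_PP := PP TK NC0 NC1

theorem ia : S_IA := IA pp CLEAN LEV (HVC TK) LIFTI (ARI PFS) lg ems PFS

theorem fine : S_FINE :=
  FINE COMT SHS (NOT3 NC0 NC1 NC2 TK) (TIIa TK NC0 NC2 emt) (TIIb TK NC1 emt LEAF)
    (TIIIa TK NC1 NC2 emt) (TIIIb TK NC0 emt) (TIa pp LEAF) (TIb TK NC2 emt) iiia ia

theorem ub : S_UB := UB (FIN2 fine PARM SHC PFS) POT

theorem lb : S_LB := LB LB1 LB2 LB3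

/-- `U_2(n,3)` has the order of magnitude `n ^ (4/3) / (log n) ^ (2/3)`. -/
theorem result : ∃ c C : ℝ, 0 < c ∧ 0 < C ∧ ∀ᶠ n : ℕ in Filter.atTop,
    c * (n : ℝ) ^ (4 / 3 : ℝ) / (Real.log n) ^ (2 / 3 : ℝ) ≤ (U 2 n 3 : ℝ) ∧
      (U 2 n 3 : ℝ) ≤ C * (n : ℝ) ^ (4 / 3 : ℝ) / (Real.log n) ^ (2 / 3 : ℝ) := by
  obtain ⟨c, hc, h1⟩ := lb
  obtain ⟨C, hC, h2⟩ := ub
  exact ⟨c, C, hc, hC, h1.and h2⟩

end Pool.Agent.Results.MP_9dddc4_co.UTwoOrder
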