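import Pool.Agent.H773R2.UG.COMT
import Pool.Agent.H773R2.UG.REA
import Pool.Agent.H773R2.UG.REB
import Pool.Agent.H773R2.UG.REG
import Pool.Agent.H773R2.UG.SUP
import Pool.Agent.H773R2.UG.TIC
import Pool.Agent.H773R2.UG.EMS
import Pool.Agent.H773R2.UG.EMB
import Pool.Agent.H773R2.UG.GRE
import Pool.Agent.H773R2.UG.GRB
import Pool.Agent.H773R2.UG.ORU
import Pool.Agent.H773R2.UG.SHP
import Pool.Agent.H773R2.UG.ONM
import Pool.Agent.H773R2.UG.OC2
import Pool.Agent.H773R2.UG.OCG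
import Pool.Agent.H773R2.UG.OF4
import Pool.Agent.H773R2.UG.ORM
import Pool.Agent.H773R2.UG.ORD
import Pool.Agent.H773R2.UG.DHA
import Pool.Agent.H773R2.UG.DHB
import Pool.Agent.H773R2.UG.UNG
import Pool.Agent.H773R2.UG.UPG
import Pool.Agent.H773R2.UG.LOGG
import Pool.Agent.H773R2.UG.LCS
import Pool.Agent.H773R2.UG.LOS
import Pool.Agent.H773R2.UG.A40
import Pool.Agent.H773R2.UG.A41
import Pool.Agent.H773R2.UG.A42
import Pool.Agent.H773R2.UG.SF4
import Pool.Agent.H773R2.UG.OA3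
import Pool.Agent.H773R2.UG.GRM
import Pool.Agent.H773R2.UG.GBM
import Pool.Agent.H773R2.UG.KSH
import Pool.Agent.H773R2.UG.KNM
import Pool.Agent.H773R2.UG.KGP
import Pool.Agent.H773R2.UG.KC0
import Pool.Agent.H773R2.UG.KC1
import Pool.Agent.H773R2.UG.KC2
import Pool.Agent.H773R2.UG.KC3
import Pool.Agent.H773R2.UG.KCX
import Pool.Agent.H773R2.UG.KSF
import Pool.Agent.H773R2.UG.ORK
import Pool.Agent.H773R2.UG.UNX
import Pool.Agent.H773R2.UG.UPK
import Pool.Agent.H773R2.UG.PKR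
import Pool.Agent.H773R2.UG.GLU
import Pool.Agent.H773R2.UG.GLC
import Pool.Agent.H773R2.UG.GA1
import Pool.Agent.H773R2.UG.GA2
import Pool.Agent.H773R2.UG.GA3
import Pool.Agent.H773R2.UG.GLB
import Pool.Agent.H773R2.UG.EAM
import Pool.Agent.H773R2.UX.SFK
import Pool.Agent.H773R2.UG.COSK
import Pool.Agent.H773R2.UX.UBK
import Pool.Agent.H773R2.UX.UBM
import Pool.Agent.H773R2.UG.MON
import Pool.Agent.H773R2.UR.SFB
import Pool.Agent.H773R2.UR.SFN
import Pool.Agent.H773R2.UK.GRR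
import Pool.Agent.H773R2.UK.LC
import Pool.Agent.H773R2.UK.LOB
import Pool.Agent.H773R2.UK.OVA
import Pool.Agent.H773R2.UK.RG0
import Pool.Agent.H773R2.UK.TRI

/-!
Bounds for `U_k(n,r)` for all `r ≥ 4`, `k ≥ 3`, with matching exponents for all `k ≥ r-1`.
Blueprint and assembly: helper773. Formalisation of the lemmas: helpers 8, 16, 19, 25, 48, 50,
58, 59, 64, 81, 96, 101, 116, 179, 180, 197, 218, 220, 233, 237, 247, 260, 278, 287, 294, 329,
368, 400, 407, 409, 431, 434, 437, 459, 493, 498, 501, 532, 538, 541, 588, 594, 605, 609, 634,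
666, 672, 675, 692, 693, 704, 737, 743, 747, 758, 782, 793, 797, 804, 816, 854, 862, 866, 880,
889, 899, 909, 930, 953, 956, 959, 965, 972, 989.
-/

namespace Pool.Agent.Results.MP_9dddc4_co.UkExponents

open Pool.Agent.Results.MP_9dddc4_co.UkExponent H773Y

/-- the exponent of the lower bound: `(r-1)(k-1)(r-a)/((r-a)k-1)` with `a = ⌊(r-1)/k⌋` -/
noncomputable def loExp (r k : ℕ) : ℝ :=
  ((r : ℝ) - 1) * ((k : ℝ) - 1) * ((r : ℝ) - ((r - 1) / k : ℕ)) /
    (((r : ℝ) - ((r - 1) / k : ℕ)) * k - 1)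

/-- the exponent of the upper bound: equal to `loExp r k` for `k ≥ r-1`, otherwise the smaller of
`(r-1)(k-1)(a+1)/((a+1)k-1)`, `a = ⌊(r-1)/k⌋`, and `(r-1)^2/r` -/
noncomputable def hiExp (r k : ℕ) : ℝ :=
  if r ≤ k + 1 then loExp r k
  else min (((r : ℝ) - 1) * ((k : ℝ) - 1) * ((((r - 1) / k : ℕ) : ℝ) + 1) /
    (((((r - 1) / k : ℕ) : ℝ) + 1) * k - 1)) (((r : ℝ) - 1) ^ 2 / r)

theorem reg : S_REG := REG (REA H773X.RG0) REB

theorem emb : S_EMB := EMB EMS

theorem orm : S_ORM := ORM GRE (OC2 ONM SHP) (OCG GRB SHP ONM) (OF4 ONM)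

theorem ord : S_ORD := ORD orm (ORU GRE GRB) SHP ONM

theorem ung : S_UNG := UNG H773X.TRI reg SUP DHA DHB ord emb TIC

theorem upg : S_UPG := UPG COMT ung H773X.OVA H773X.GRR LOGG

theorem oa3 : S_OA3 := OA3 A40 A41 A42 SF4

theorem kgp : S_KGP := KGP GBM KSH KNM

theorem ork : S_ORK :=
  ORK (KC0 GRM kgp KSH KNM) (KC1 GRM kgp KSH KNM) (KCX (KC2 KSH KNM) (KC3 GRM kgp KSH KNM) KNM)
    KSF KSH KNM oa3

theorem unx : S_UNX := UNX H773X.TRI reg SUP DHA DHB emb TIC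

theorem upk : S_UPK := UPK COMT unx ork H773X.GRR LOGG

theorem lob : H773X.S_LOB := H773X.LOB H773X.LC

theorem los : S_LOS := LOS LCS

theorem glb : S_GLB := GLB PKR (GLC GLU) GA1 GA2 GA3

theorem ubk : S_UBK := UBK (COSK SFK H773W.SFB H773W.SFN) H773X.GRR

theorem lo_eq (r k : ℕ) : loExp r k = ea r k ((r - 1) / k) := rfl

theorem div_mul_lt {r k : ℕ} (hr : 1 ≤ r) : (r - 1) / k * k + 1 ≤ r := by
  have := Nat.div_mul_le_self (r - 1) k
  omega

theorem log_ge_one {n : ℕ} (hn : 3 ≤ n) : 1 ≤ Real.log n := by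
  have hn0 : (0 : ℝ) < n := by positivity
  rw [Real.le_log_iff_exp_le hn0]
  have h3 : (3 : ℝ) ≤ n := by exact_mod_cast hn
  have := Real.exp_one_lt_d9
  linarith

theorem lower (r k : ℕ) (hr : 4 ≤ r) (hk : 3 ≤ k) : ∃ c : ℝ, 0 < c ∧
    ∀ᶠ n : ℕ in Filter.atTop,
      c * (n : ℝ) ^ loExp r k / (Real.log n) ^ 3 ≤ (U k n r : ℝ) := by
  rw [lo_eq]
  rcases Nat.eq_zero_or_pos ((r - 1) / k) with ha | ha
  · rw [ha]
    have he := (t_EAM r k 0 (by omega) (by omega) (by omega)).2.1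
    obtain ⟨c, hc, h1⟩ := lob r k (by omega) (by omega)
    refine ⟨c, hc, ?_⟩
    filter_upwards [h1, Filter.eventually_ge_atTop 3] with n hn hn3
    rw [he]
    have hl := log_ge_one hn3
    have hr' : (4 : ℝ) ≤ r := by exact_mod_cast hr
    have hk' : (3 : ℝ) ≤ k := by exact_mod_cast hk
    have h2 : (Real.log n) ^ (1 - ((r : ℝ) - 1) / (r * k - 1)) ≤ (Real.log n) ^ 3 := by
      rw [← Real.rpow_natCast (Real.log n) 3]
      apply Real.rpow_le_rpow_of_exponent_le hl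
      have : 0 ≤ ((r : ℝ) - 1) / (r * k - 1) := by
        apply div_nonneg
        · linarith
        · nlinarith
      push_cast
      linarith
    have hpos : (0 : ℝ) < (Real.log n) ^ (1 - ((r : ℝ) - 1) / (r * k - 1)) :=
      Real.rpow_pos_of_pos (by linarith) _
    refine le_trans ?_ hn
    apply div_le_div_of_nonneg_left _ hpos h2
    positivity
  · exact glb r k _ ha (by omega) (div_mul_lt (by omega))

theorem upper_eq (r k : ℕ) (hr : 4 ≤ r) (hk : r ≤ k + 1) : ∃ (C : ℝ) (D : ℕ), 0 < C ∧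
    ∀ n : ℕ, 2 ≤ n → (U k n r : ℝ) ≤ C * (n : ℝ) ^ loExp r k * (Real.log n) ^ D := by
  rw [lo_eq]
  rcases Nat.lt_or_ge k r with h | h
  · have hk1 : k = r - 1 := by omega
    subst hk1
    have ha : (r - 1) / (r - 1) = 1 := Nat.div_self (by omega)
    rw [ha]
    have he : ea r (r - 1) 1 = ((r : ℝ) - 1) ^ 2 / r := by
      unfold ea
      have h4 : (4 : ℝ) ≤ r := by exact_mod_cast hr
      rw [Nat.cast_sub (by omega : 1 ≤ r), Nat.cast_one]
      have h5 : ((r : ℝ) - 1) * ((r : ℝ) - 1) - 1 ≠ 0 := by nlinarith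
      have h6 : (r : ℝ) ≠ 0 := by linarith
      rw [div_eq_div_iff h5 h6]
      ring
    rw [he]
    exact upk r hr
  · have ha : (r - 1) / k = 0 := Nat.div_eq_of_lt (by omega)
    rw [ha, (t_EAM r k 0 (by omega) (by omega) (by omega)).2.1]
    exact upg r k hr h

theorem upper (r k : ℕ) (hr : 4 ≤ r) (hk : 3 ≤ k) : ∃ (C : ℝ) (D : ℕ), 0 < C ∧
    ∀ n : ℕ, 2 ≤ n → (U k n r : ℝ) ≤ C * (n : ℝ) ^ hiExp r k * (Real.log n) ^ D := by
  unfold hiExp
  by_cases h : r ≤ k + 1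
  · rw [if_pos h]
    exact upper_eq r k hr h
  · rw [if_neg h]
    rcases min_choice (((r : ℝ) - 1) * ((k : ℝ) - 1) * ((((r - 1) / k : ℕ) : ℝ) + 1) /
      (((((r - 1) / k : ℕ) : ℝ) + 1) * k - 1)) (((r : ℝ) - 1) ^ 2 / r) with hm | hm
    · rw [hm]
      obtain ⟨C, hC, h1⟩ := ubk r k ((r - 1) / k) (by omega) (div_mul_lt (by omega))
      refine ⟨C, 1, hC, ?_⟩
      intro n hn
      rw [pow_one]
      exact h1 n hn
    · rw [hm]
      obtain ⟨C, D, hC, h1⟩ := upk r hr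
      refine ⟨C, D, hC, ?_⟩
      intro n hn
      refine le_trans ?_ (h1 n hn)
      exact_mod_cast MON n r k (r - 1) (by omega) (by omega)

theorem exps (r k : ℕ) (hr : 4 ≤ r) (hk : 3 ≤ k) : hiExp r k < loExp r k + 1 := by
  have hk' : (3 : ℝ) ≤ k := by exact_mod_cast hk
  unfold hiExp
  by_cases h : r ≤ k + 1
  · rw [if_pos h]
    linarith
  · rw [if_neg h]
    have h1 := (UBM r k ((r - 1) / k) (by omega) (by omega) (div_mul_lt (by omega))).2.1 (by
      have h2 := Nat.lt_div_mul_add (a := r - 1) (b := k) (by omega)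
      have h3 : ((r - 1) / k + 1) * k = (r - 1) / k * k + k := by ring
      omega)
    have h2 := (t_EAM r k ((r - 1) / k) (by omega) (by omega) (div_mul_lt (by omega))).2.2.1
    have h3 : ((k : ℝ) - 1) / k < 1 := by
      rw [div_lt_one (by linarith)]
      linarith
    refine lt_of_le_of_lt (min_le_left _ _) ?_
    rw [lo_eq]
    unfold ub at h1
    linarith

/-- For all `r ≥ 4` and `k ≥ 3` the number `U_k(n,r)` lies, up to powers of the logarithm, between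
`n ^ loExp r k` and `n ^ hiExp r k`; the two exponents agree for `k ≥ r-1` and differ by less than
one in general. -/
theorem result : ∀ r k : ℕ, 4 ≤ r → 3 ≤ k →
    (∃ (c C : ℝ) (D : ℕ), 0 < c ∧ 0 < C ∧ ∀ᶠ n : ℕ in Filter.atTop,
      c * (n : ℝ) ^ loExp r k / (Real.log n) ^ 3 ≤ (U k n r : ℝ) ∧
      (U k n r : ℝ) ≤ C * (n : ℝ) ^ hiExp r k * (Real.log n) ^ D) ∧
    (r ≤ k + 1 → hiExp r k = loExp r k) ∧ hiExp r k < loExp r k + 1 := by
  intro r k hr hk
  refine ⟨?_, fun h => if_pos h, exps r k hr hk⟩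
  obtain ⟨c, hc, h1⟩ := lower r k hr hk
  obtain ⟨C, D, hC, h2⟩ := upper r k hr hk
  refine ⟨c, C, D, hc, hC, ?_⟩
  filter_upwards [h1, Filter.eventually_ge_atTop 2] with n hn hn2
  exact ⟨hn, h2 n hn2⟩

end Pool.Agent.Results.MP_9dddc4_co.UkExponents
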